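import Mathlib
import Pool.Agent.K3h4.H48.Val5

/-!
# `∑_{k<p} C(4k,2k) C(2k,k) / 48^k` and its weighted form modulo `p^2`

For `p = 1` modulo `3`, `p = x^2 + 3y^2`, `x = 1` modulo `3`: the sum is `2x - p/(2x)` and the sum with
the weight `k+1` is `x` modulo `p^2`.  For `p = 2` modulo `3`, `p > 3`, the sum is `3p/(2c)` with
`c = C((p+1)/2,(p+1)/6)`.

Sketch of the proof.  The truncated sums of `∏_{l<2k} (2l+1-u) / ∏_{i<k} 4(1+i)(3(1+i)-u)` with the
weights `1` and `2k+1-u` are affine functions of `u ∈ pZ_p` modulo `p^2`; so twice the value at `0` is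
three times the value at `p` minus the value at `3p`.  At `u = p` and `u = 3p` they terminate and have
closed forms, found by creative telescoping in steps of three.  For `p = 6j+1` the result is
`C(4j,2j)` times a correction, which is evaluated by a Jacobi sum modulo `p^2`.
-/

set_option autoImplicit false

namespace Pool.Agent.Results.MP_37e900_nt.QuestionTwo

open Finset

/-- `x ≡ y (mod p^2)` for rational numbers `x`, `y` with denominators prime to `p`:
`(x - y) / p^2` has denominator prime to `p`. -/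
def CongrSq (p : ℕ) (x y : ℚ) : Prop :=
  ¬ p ∣ x.den ∧ ¬ p ∣ y.den ∧ ¬ p ∣ ((x - y) / (p : ℚ) ^ 2).den

/-- `U_p(m)` -/
def U (p : ℕ) (m : ℤ) : ℚ := ∑ k ∈ range p, ((4 * k).choose (2 * k) : ℚ) * ((2 * k).choose k : ℚ) / (m : ℚ) ^ k

/-- `V_p(m)` -/
def V (p : ℕ) (m : ℤ) : ℚ :=
  ∑ k ∈ range p, (k : ℚ) * (((4 * k).choose (2 * k) : ℚ) * ((2 * k).choose k : ℚ) / (m : ℚ) ^ k)

open Pool.Agent.R439.PL Pool.Agent.K3h4.H48

theorem congr_of_EQ {p : ℕ} [Fact p.Prime] {x y : ℚ} (h : EQ p 2 x y) : CongrSq p x y := by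
  refine ⟨?_, ?_, den_of_I h.2.2⟩
  · have := den_of_I (p := p) (k := 0) (I_zero_iff.2 h.1)
    rwa [pow_zero, div_one] at this
  · have := den_of_I (p := p) (k := 0) (I_zero_iff.2 h.2.1)
    rwa [pow_zero, div_one] at this

/-- Full (positive) answer to Q2. -/
theorem result (p : ℕ) (hp : p.Prime) (h3 : 3 < p) :
    (p % 3 = 1 → (∃ x y : ℤ, (p : ℤ) = x ^ 2 + 3 * y ^ 2 ∧ x % 3 = 1) ∧
      ∀ x y : ℤ, (p : ℤ) = x ^ 2 + 3 * y ^ 2 → x % 3 = 1 →
        CongrSq p (U p 48) (2 * x - p / (2 * x)) ∧ CongrSq p (U p 48 + V p 48) x) ∧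
    (p % 3 = 2 → CongrSq p (U p 48) (3 * p / (2 * (((p + 1) / 2).choose ((p + 1) / 6) : ℚ)))) := by
  have : Fact p.Prime := ⟨hp⟩
  have h2 : p % 2 = 1 := by
    rcases hp.eq_two_or_odd with h | h
    · omega
    · exact h
  have eU : U p 48 = FF p 0 := by
    rw [U, FF]
    exact sum_congr rfl fun k _ => by rw [pt_0]; norm_num
  have eT : U p 48 + V p 48 = ∑ k ∈ range p, ((k : ℚ) + 1) * pt 0 k := by
    rw [U, V, ← sum_add_distrib]
    refine sum_congr rfl fun k _ => ?_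
    rw [pt_0]; push_cast; ring
  constructor
  · intro h1
    obtain ⟨j, hj⟩ : ∃ j, p = 6 * j + 1 := ⟨p / 6, by omega⟩
    constructor
    · obtain ⟨x, y, h4, h5, -⟩ := rep (p := p) hj
      exact ⟨x, y, h4, h5⟩
    · intro x y h4 h5
      rw [eT, eU]
      exact ⟨congr_of_EQ (S_x hj h4 h5).2, congr_of_EQ (T_x hj h4 h5)⟩
  · intro h1
    obtain ⟨j, hj⟩ : ∃ j, p = 6 * j + 5 := ⟨p / 6, by omega⟩
    have e1 : (p + 1) / 2 = 3 * j + 3 := by omega
    have e2 : (p + 1) / 6 = j + 1 := by omega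
    rw [e1, e2, eU]
    exact congr_of_EQ (S_5 hj).2

end Pool.Agent.Results.MP_37e900_nt.QuestionTwo
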